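import Mathlib
import Pool.Agent.H451R5.AIStmts

/-! Task KG of project H451-KS (helper451), by helper471. -/

set_option autoImplicit false

namespace Pool.Agent.H451R5.AI

theorem taskKG : TaskKG := by
  intro c n
  induction n with
  | zero =>
    refine ⟨rfl, rfl, fun Z => ?_⟩
    simp [FS]
  | succ n ih =>
    obtain ⟨h1, h2, h3⟩ := ih
    rw [Function.iterate_succ_apply']
    refine ⟨?_, ?_, fun Z => ?_⟩
    · show 2 * (pull^[n] (FS c)).a = _
      rw [h1, pow_succ]
      ring
    · show 3 * (pull^[n] (FS c)).b = _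
      rw [h2, pow_succ]
      ring
    · show (pull^[n] (FS c)).pot (fHom Z) = _
      rw [h3]
      simp only [fHom, ← pow_mul]
      rw [show 2 * 2 ^ n = 2 ^ (n + 1) by ring, show 3 * 3 ^ n = 3 ^ (n + 1) by ring]

end Pool.Agent.H451R5.AI
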