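import Pool.Agent.H301X.BG.Stmts
import Pool.Agent.Helper857.A1

/-! # H301-BG TaskMontel (helper471) -/

set_option autoImplicit false

open MeasureTheory Topology Filter Set Metric
open scoped ENNReal NNReal

namespace Pool.Agent.H301X.BG

namespace MontelAux

variable {n : ℕ}

/-- uniform bound on a ball from the mean value inequality -/
lemma local_bound (hMV : TaskMV) (Ω : Set (Fin n → ℂ)) (f : ℕ → (Fin n → ℂ) → ℂ) (C : ℝ≥0)
    (hd : ∀ j, DifferentiableOn ℂ (f j) Ω) (hint : ∀ j, ∫⁻ z in Ω, ‖f j z‖ₑ ^ 2 ≤ C)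
    (z : Fin n → ℂ) (δ : ℝ) (hδ : 0 < δ) (hsub : ball z (2 * δ) ⊆ Ω) :
    ∃ B : ℝ, 0 ≤ B ∧ ∀ j, ∀ w ∈ ball z δ, ‖f j w‖ ≤ B := by
  set m : ℝ≥0∞ := (volume : Measure (Fin n → ℂ)) (ball 0 δ) with hm
  have hm0 : m ≠ 0 := (measure_ball_pos _ _ hδ).ne'
  have hmt : m ≠ ⊤ := measure_ball_lt_top.ne
  refine ⟨√((C / m : ℝ≥0∞).toReal), Real.sqrt_nonneg _, fun j w hw => ?_⟩
  have hsubw : ball w δ ⊆ Ω := by
    refine Subset.trans ?_ hsub
    intro y hy
    have h1 := mem_ball.1 hy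
    have h2 := mem_ball.1 hw
    have := dist_triangle y w z
    exact mem_ball.2 (by linarith)
  have h1 := hMV (Fin n → ℂ) volume w δ (f j) hδ ((hd j).mono hsubw)
  rw [Measure.addHaar_ball_center] at h1
  have h2 : ‖f j w‖ₑ ^ 2 * m ≤ C :=
    h1.trans ((lintegral_mono_set hsubw).trans (hint j))
  have h3 : ‖f j w‖ₑ ^ 2 ≤ C / m := (ENNReal.le_div_iff_mul_le (Or.inl hm0) (Or.inl hmt)).2 h2
  have h4 : (C / m : ℝ≥0∞) ≠ ⊤ := ENNReal.div_ne_top ENNReal.coe_ne_top hm0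
  have h5 := ENNReal.toReal_mono h4 h3
  rw [ENNReal.toReal_pow, toReal_enorm] at h5
  exact Real.le_sqrt_of_sq_le h5

lemma montel_gen (Ω : Set (Fin n → ℂ)) (hΩ : IsOpen Ω) (h : ℕ → (Fin n → ℂ) → ℂ)
    (hd : ∀ j, DifferentiableOn ℂ (h j) Ω)
    (hbd : ∀ z ∈ Ω, ∃ δ : ℝ, 0 < δ ∧ ball z δ ⊆ Ω ∧
      ∃ B : ℝ, 0 ≤ B ∧ ∀ j, ∀ w ∈ ball z δ, ‖h j w‖ ≤ B) :
    ∃ φ : ℕ → ℕ, StrictMono φ ∧ ∃ g : (Fin n → ℂ) → ℂ,
      TendstoLocallyUniformlyOn (fun j => h (φ j)) g atTop Ω := by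
  -- the equi-Lipschitz estimate
  have hL : ∀ z ∈ Ω, ∃ K : ℝ, 0 < K ∧ ∃ δ : ℝ, 0 < δ ∧ ball z δ ⊆ Ω ∧
      ∀ j, ∀ w ∈ ball z δ, ‖h j w - h j z‖ ≤ K * ‖w - z‖ := by
    intro z hz
    obtain ⟨δ, hδ, hsub, B, hB0, hB⟩ := hbd z hz
    refine ⟨(2 * B + 1) / δ, by positivity, δ, hδ, hsub, fun j w hw => ?_⟩
    have hmaps : MapsTo (h j) (ball z δ) (closedBall (h j z) (2 * B)) := by
      intro x hx
      rw [mem_closedBall, dist_eq_norm]
      have h1 := hB j x hx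
      have h2 := hB j z (mem_ball_self hδ)
      have h3 := norm_sub_le (h j x) (h j z)
      linarith
    have h4 := Complex.dist_le_div_mul_dist_of_mapsTo_ball ((hd j).mono hsub) hmaps hw
    rw [dist_eq_norm, dist_eq_norm] at h4
    refine h4.trans ?_
    gcongr
    linarith
  -- values on a dense sequence
  set d : ℕ → (Fin n → ℂ) := TopologicalSpace.denseSeq (Fin n → ℂ) with hdd
  have hdense : DenseRange d := TopologicalSpace.denseRange_denseSeq (Fin n → ℂ)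
  have hbd' : ∀ k, ∃ C : ℝ, ∀ j, d k ∈ Ω → ‖h j (d k)‖ ≤ C := by
    intro k
    by_cases hk : d k ∈ Ω
    · obtain ⟨δ, hδ, hsub, B, hB0, hB⟩ := hbd _ hk
      exact ⟨B, fun j _ => hB j _ (mem_ball_self hδ)⟩
    · exact ⟨0, fun j h => absurd h hk⟩
  choose C hC using hbd'
  classical
  set x : ℕ → ℕ → ℂ := fun j k => if d k ∈ Ω then h j (d k) else 0 with hx
  have hcomp : IsCompact (Set.pi Set.univ fun k : ℕ => closedBall (0 : ℂ) |C k|) :=
    isCompact_univ_pi fun k => isCompact_closedBall _ _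
  have hxm : ∀ j, x j ∈ Set.pi Set.univ fun k : ℕ => closedBall (0 : ℂ) |C k| := by
    intro j k _
    simp only [hx]
    rw [mem_closedBall_zero_iff]
    split_ifs with hk
    · exact (hC k j hk).trans (le_abs_self _)
    · simp
  obtain ⟨a, -, φ, hφ, hlim⟩ := hcomp.tendsto_subseq hxm
  have hk : ∀ k, d k ∈ Ω → CauchySeq fun j => h (φ j) (d k) := by
    intro k hk
    have h1 : Tendsto (fun j => x (φ j) k) atTop (𝓝 (a k)) :=
      ((continuous_apply k).tendsto a).comp hlim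
    have h2 : (fun j => x (φ j) k) = fun j => h (φ j) (d k) := by
      ext1 j
      simp only [hx, if_pos hk]
    rw [h2] at h1
    exact h1.cauchySeq
  have hcau : ∀ z ∈ Ω, CauchySeq fun j => h (φ j) z := by
    intro z hz
    obtain ⟨K, hK, δ, hδ, hsub, hLip⟩ := hL z hz
    rw [Metric.cauchySeq_iff']
    intro ε hε
    obtain ⟨k, hkz⟩ : ∃ k, d k ∈ ball z (min δ (ε / (3 * K))) :=
      hdense.exists_mem_open isOpen_ball ⟨z, mem_ball_self (by positivity)⟩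
    have hkδ : d k ∈ ball z δ := ball_subset_ball (min_le_left _ _) hkz
    have hke : ‖d k - z‖ < ε / (3 * K) := by
      have := ball_subset_ball (min_le_right _ _) hkz
      rwa [mem_ball, dist_eq_norm] at this
    have hke' : K * ‖d k - z‖ < ε / 3 := by
      calc K * ‖d k - z‖ < K * (ε / (3 * K)) := by gcongr
        _ = ε / 3 := by field_simp
    obtain ⟨N, hN⟩ := (Metric.cauchySeq_iff'.1 (hk k (hsub hkδ))) (ε / 3) (by positivity)
    refine ⟨N, fun j hj => ?_⟩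
    have h1 := hLip (φ j) (d k) hkδ
    have h2 := hLip (φ N) (d k) hkδ
    have h3 := hN j hj
    rw [dist_eq_norm] at h3 ⊢
    calc ‖h (φ j) z - h (φ N) z‖ = ‖-(h (φ j) (d k) - h (φ j) z) + (h (φ j) (d k) - h (φ N) (d k))
          + (h (φ N) (d k) - h (φ N) z)‖ := by congr 1; abel
      _ ≤ ‖-(h (φ j) (d k) - h (φ j) z)‖ + ‖h (φ j) (d k) - h (φ N) (d k)‖
          + ‖h (φ N) (d k) - h (φ N) z‖ := norm_add₃_le
      _ < ε := by rw [norm_neg]; linarith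
  have hex : ∀ z : Fin n → ℂ, ∃ w : ℂ, z ∈ Ω → Tendsto (fun j => h (φ j) z) atTop (𝓝 w) := by
    intro z
    by_cases hz : z ∈ Ω
    · obtain ⟨w, hw⟩ := cauchySeq_tendsto_of_complete (hcau z hz)
      exact ⟨w, fun _ => hw⟩
    · exact ⟨0, fun h => absurd h hz⟩
  choose g hg using hex
  refine ⟨φ, hφ, g, ?_⟩
  rw [Metric.tendstoLocallyUniformlyOn_iff]
  intro ε hε z hz
  obtain ⟨K, hK, δ, hδ, hsub, hLip⟩ := hL z hz
  refine ⟨ball z (min δ (ε / (3 * K))), mem_nhdsWithin_of_mem_nhds (ball_mem_nhds _ (by positivity)),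
    ?_⟩
  have h1 := (Metric.tendsto_atTop.1 (hg z hz)) (ε / 3) (by positivity)
  obtain ⟨N, hN⟩ := h1
  filter_upwards [eventually_ge_atTop N] with j hj w hw
  have hwδ : w ∈ ball z δ := ball_subset_ball (min_le_left _ _) hw
  have hwe : K * ‖w - z‖ ≤ ε / 3 := by
    have := ball_subset_ball (min_le_right _ _) hw
    rw [mem_ball, dist_eq_norm] at this
    calc K * ‖w - z‖ ≤ K * (ε / (3 * K)) := by gcongr
      _ = ε / 3 := by field_simp
  have h2 : ‖g w - g z‖ ≤ ε / 3 := by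
    have h3 : Tendsto (fun j => ‖h (φ j) w - h (φ j) z‖) atTop (𝓝 ‖g w - g z‖) :=
      ((hg w (hsub hwδ)).sub (hg z hz)).norm
    exact le_of_tendsto' h3 fun j => (hLip (φ j) w hwδ).trans hwe
  have h4 := (hLip (φ j) w hwδ).trans hwe
  have h5 := hN j hj
  rw [dist_eq_norm] at h5
  rw [dist_comm, dist_eq_norm]
  calc ‖h (φ j) w - g w‖ = ‖(h (φ j) w - h (φ j) z) + (h (φ j) z - g z) + -(g w - g z)‖ := by
        congr 1; abel
    _ ≤ ‖h (φ j) w - h (φ j) z‖ + ‖h (φ j) z - g z‖ + ‖-(g w - g z)‖ := norm_add₃_le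
    _ < ε := by rw [norm_neg]; linarith

end MontelAux

open MontelAux in
theorem taskMontel : TaskMontel := by
  intro hMV n Ω f C hΩ hd hint
  obtain ⟨φ, hφ, g, hg⟩ := montel_gen Ω hΩ f hd (fun z hz => by
    obtain ⟨ε, hε, hsub⟩ := Metric.isOpen_iff.1 hΩ z hz
    have h2 : ball z (2 * (ε / 2)) ⊆ Ω := by rwa [mul_div_cancel₀ _ (two_ne_zero)]
    exact ⟨ε / 2, by positivity, (ball_subset_ball (by linarith)).trans hsub,
      local_bound hMV Ω f C hd hint z (ε / 2) (by positivity) h2⟩)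
  have hK := (tendstoLocallyUniformlyOn_iff_forall_isCompact hΩ).1 hg
  refine ⟨g, φ, hφ, ?_, fun K hK1 hK2 => hK K hK2 hK1⟩
  intro z hz
  obtain ⟨ε, hε, hsub⟩ := Metric.nhds_basis_closedBall.mem_iff.1 (hΩ.mem_nhds hz)
  have h1 : TendstoUniformlyOn (fun j => f (φ j)) g atTop (ball z ε) :=
    (hK _ hsub (isCompact_closedBall z ε)).mono ball_subset_closedBall
  have h2 := Pool.Agent.Helper857.differentiableOn_of_tendstoUniformlyOn_ball
    (fun j => (hd (φ j)).mono (ball_subset_closedBall.trans hsub)) h1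
  exact ((h2 z (mem_ball_self hε)).differentiableAt (ball_mem_nhds _ hε)).differentiableWithinAt

end Pool.Agent.H301X.BG
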