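import Mathlib

/-!
Function theoretic lemmas for the counterexample to the closedness of Ferrier's bornological
Runge closure: finite differences of entire functions of polynomial growth, and explicit
polynomials converging to different constants near `0` and near `1`.
-/

open Filter Topology Finset

namespace Pool.Agent.H471R3.Fer

/-- Finite differences of entire functions of polynomial growth. -/
theorem fwdDiff_eq_zero_of_growth (t : ℂ) : ∀ (N : ℕ) (h : ℂ → ℂ), Differentiable ℂ h →
    (∃ C : ℝ, ∀ z, ‖h z‖ ≤ C * (1 + ‖z‖) ^ N) → (fwdDiff t)^[N + 1] h = 0 := by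
  intro N
  induction N with
  | zero =>
    rintro h hd ⟨C, hC⟩
    have hb : Bornology.IsBounded (Set.range h) := by
      rw [isBounded_iff_forall_norm_le]
      refine ⟨C, ?_⟩
      rintro _ ⟨z, rfl⟩
      simpa using hC z
    funext z
    simp only [zero_add, Function.iterate_one, fwdDiff, Pi.zero_apply]
    rw [hd.apply_eq_apply_of_bounded hb (z + t) z, sub_self]
  | succ N ih =>
    rintro h hd ⟨C, hC⟩
    have hC0 : 0 ≤ C := by
      have := hC 0
      simp at this
      exact (norm_nonneg _).trans this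
    have hd' : Differentiable ℂ (deriv h) := by
      have := hd.contDiff (n := 2)
      exact (this.differentiable_deriv_two)
    have hg : ∃ C' : ℝ, ∀ z, ‖deriv h z‖ ≤ C' * (1 + ‖z‖) ^ N := by
      refine ⟨C * 2 ^ (N + 1), fun z => ?_⟩
      have hR : (0 : ℝ) < 1 + ‖z‖ := by positivity
      have := Complex.norm_deriv_le_of_forall_mem_sphere_norm_le (c := z) (R := 1 + ‖z‖)
        (C := C * (2 * (1 + ‖z‖)) ^ (N + 1)) (f := h) hR hd.diffContOnCl ?_
      · refine this.trans (le_of_eq ?_)
        rw [mul_pow, pow_succ (1 + ‖z‖)]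
        field_simp
      · intro w hw
        refine (hC w).trans ?_
        gcongr
        have : ‖w‖ ≤ ‖w - z‖ + ‖z‖ := by simpa using norm_add_le (w - z) z
        rw [mem_sphere_iff_norm] at hw
        linarith
    have hcomm : ∀ (m : ℕ) (g : ℂ → ℂ), Differentiable ℂ g →
        Differentiable ℂ ((fwdDiff t)^[m] g) ∧
        deriv ((fwdDiff t)^[m] g) = (fwdDiff t)^[m] (deriv g) := by
      intro m
      induction m with
      | zero => intro g hg; exact ⟨hg, rfl⟩
      | succ m ihm =>
        intro g hg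
        obtain ⟨h1, h2⟩ := ihm g hg
        rw [Function.iterate_succ', Function.comp, Function.comp]
        have h3 : Differentiable ℂ (fun z => (fwdDiff t)^[m] g (z + t)) :=
          h1.comp (differentiable_id.add_const t)
        refine ⟨?_, ?_⟩
        · exact h3.sub h1
        · funext z
          have e1 : deriv (fun z => (fwdDiff t)^[m] g (z + t)) z
              = deriv ((fwdDiff t)^[m] g) (z + t) := by
            rw [deriv_comp_add_const]
          show deriv (fun z => (fwdDiff t)^[m] g (z + t) - (fwdDiff t)^[m] g z) z = _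
          rw [deriv_fun_sub (h3 z) (h1 z), e1, h2]
          rfl
    have h0 := ih (deriv h) hd' hg
    obtain ⟨h1, h2⟩ := hcomm (N + 1) h hd
    rw [h0] at h2
    rw [Function.iterate_succ', Function.comp]
    funext z
    show (fwdDiff t)^[N + 1] h (z + t) - (fwdDiff t)^[N + 1] h z = 0
    rw [is_const_of_deriv_eq_zero h1 (fun x => by rw [h2]; rfl) (z + t) z, sub_self]

theorem fwdDiff_exp (t : ℂ) (m : ℕ) (z : ℂ) :
    (fwdDiff t)^[m] Complex.exp z = (Complex.exp t - 1) ^ m * Complex.exp z := by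
  induction m generalizing z with
  | zero => simp
  | succ m ih =>
    rw [Function.iterate_succ', Function.comp]
    show (fwdDiff t)^[m] Complex.exp (z + t) - (fwdDiff t)^[m] Complex.exp z = _
    rw [ih, ih, Complex.exp_add]
    ring

/-- the smooth step polynomial -/
noncomputable def stp (w : ℂ) : ℂ := 3 * w ^ 2 - 2 * w ^ 3

theorem stp_one_sub (w : ℂ) : 1 - stp w = stp (1 - w) := by
  unfold stp; ring

theorem stp_bound {w : ℂ} (hw : ‖w‖ ≤ 1 / 8) : ‖stp w‖ ≤ ‖w‖ / 2 := by
  have h0 := norm_nonneg w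
  have : stp w = w * w * (3 - 2 * w) := by unfold stp; ring
  rw [this, norm_mul, norm_mul]
  have h3 : ‖(3 : ℂ) - 2 * w‖ ≤ 4 := by
    refine (norm_sub_le _ _).trans ?_
    rw [norm_mul]
    simp only [Complex.norm_ofNat]
    linarith
  calc ‖w‖ * ‖w‖ * ‖3 - 2 * w‖ ≤ ‖w‖ * ‖w‖ * 4 := by gcongr
    _ ≤ ‖w‖ * (1 / 8) * 4 := by gcongr
    _ = ‖w‖ / 2 := by ring

theorem stp_iter_bound (j : ℕ) {w : ℂ} (hw : ‖w‖ ≤ 1 / 8) : ‖stp^[j] w‖ ≤ (1 / 2) ^ j := by
  have key : ‖stp^[j] w‖ ≤ (1 / 2) ^ j * ‖w‖ := by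
    induction j with
    | zero => simp
    | succ j ih =>
      rw [Function.iterate_succ', Function.comp]
      have h1 : ‖stp^[j] w‖ ≤ 1 / 8 := by
        refine ih.trans ?_
        have : ((1 : ℝ) / 2) ^ j ≤ 1 := pow_le_one₀ (by norm_num) (by norm_num)
        nlinarith [norm_nonneg w]
      refine (stp_bound h1).trans ?_
      rw [pow_succ]
      linarith
  refine key.trans ?_
  have : (0 : ℝ) ≤ (1 / 2) ^ j := by positivity
  nlinarith

theorem stp_iter_one_sub (j : ℕ) (w : ℂ) : 1 - stp^[j] w = stp^[j] (1 - w) := by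
  induction j generalizing w with
  | zero => rfl
  | succ j ih =>
    rw [Function.iterate_succ, Function.comp, Function.comp, ih, stp_one_sub]

theorem stp_iter_bound_one (j : ℕ) {w : ℂ} (hw : ‖w - 1‖ ≤ 1 / 8) :
    ‖stp^[j] w - 1‖ ≤ (1 / 2) ^ j := by
  rw [← norm_neg, neg_sub, stp_iter_one_sub]
  apply stp_iter_bound
  rwa [← norm_neg, neg_sub]

theorem differentiable_stp : Differentiable ℂ stp := by
  unfold stp; fun_prop

theorem differentiable_stp_iter (j : ℕ) : Differentiable ℂ (stp^[j]) :=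
  differentiable_stp.iterate j

/-- partial sums of the exponential series -/
noncomputable def psum (m : ℕ) (z : ℂ) : ℂ := ∑ i ∈ range m, z ^ i / (i.factorial : ℂ)

theorem differentiable_psum (m : ℕ) : Differentiable ℂ (psum m) := by
  unfold psum
  fun_prop

theorem psum_bound (m : ℕ) (z : ℂ) : ‖psum m z‖ ≤ m * (1 + ‖z‖) ^ m := by
  unfold psum
  refine (norm_sum_le _ _).trans ?_
  have : ∀ i ∈ range m, ‖z ^ i / (i.factorial : ℂ)‖ ≤ (1 + ‖z‖) ^ m := by
    intro i hi
    rw [norm_div, norm_pow, Complex.norm_natCast]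
    have h1 : (1 : ℝ) ≤ (i.factorial : ℝ) := by exact_mod_cast Nat.one_le_iff_ne_zero.mpr i.factorial_ne_zero
    have hz := norm_nonneg z
    calc ‖z‖ ^ i / (i.factorial : ℝ) ≤ ‖z‖ ^ i := div_le_self (by positivity) h1
      _ ≤ (1 + ‖z‖) ^ i := by gcongr; linarith
      _ ≤ (1 + ‖z‖) ^ m := pow_le_pow_right₀ (by linarith) (mem_range.mp hi).le
  refine (sum_le_sum this).trans ?_
  simp

theorem psum_exp {m : ℕ} (hm : 0 < m) {z : ℂ} (hz : ‖z‖ ≤ 1) :
    ‖psum m z - Complex.exp z‖ ≤ 2 / m := by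
  rw [← norm_neg, neg_sub]
  refine (Complex.exp_bound hz hm).trans ?_
  have h1 : ‖z‖ ^ m ≤ 1 := pow_le_one₀ (norm_nonneg z) hz
  have hm' : (1 : ℝ) ≤ m := by exact_mod_cast hm
  have hf : (1 : ℝ) ≤ (m.factorial : ℝ) := by exact_mod_cast Nat.one_le_iff_ne_zero.mpr m.factorial_ne_zero
  have hf2 : (m : ℝ) ≤ (m.factorial : ℝ) := by exact_mod_cast m.self_le_factorial
  calc ‖z‖ ^ m * ((m.succ : ℝ) * ((m.factorial : ℝ) * m)⁻¹)
      ≤ 1 * ((m.succ : ℝ) * ((m.factorial : ℝ) * m)⁻¹) := by gcongr
    _ ≤ 2 / m := by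
      rw [one_mul, ← div_eq_mul_inv, div_le_div_iff₀ (by positivity) (by positivity)]
      push_cast
      nlinarith

end Pool.Agent.H471R3.Fer
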