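import Mathlib

/-!
The ten-element series-parallel poset used for the negation of the min-max formula for weighted
linear extensions: the seven weighted edges form a 7-cycle in the conflict graph, so every linear
extension has weight at most 3, while series cuts and bifans contain at most two of the edges.
-/

namespace Pool.Agent.H471R3.SP

/-- The ten elements `b, q1, q2, r1, r2, s1, s3, s2, s4, t` of the poset
`b ⊕ (({q1,q2} ⊕ {r1,r2}) ∥ ({s1,s3} ⊕ {s2,s4})) ⊕ t`. -/
inductive Q where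
  | b | q1 | q2 | r1 | r2 | s1 | s3 | s2 | s4 | t
  deriving DecidableEq

instance instFin : Fintype Q where
  elems := {.b, .q1, .q2, .r1, .r2, .s1, .s3, .s2, .s4, .t}
  complete := by
    intro x
    cases x <;> decide

/-- Strict order. -/
def ltB : Q → Q → Bool
  | .b, .b => false
  | .b, _ => true
  | .t, _ => false
  | _, .t => true
  | .q1, .r1 => true
  | .q1, .r2 => true
  | .q2, .r1 => true
  | .q2, .r2 => true
  | .s1, .s2 => true
  | .s1, .s4 => true
  | .s3, .s2 => true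
  | .s3, .s4 => true
  | _, _ => false

/-- Covering relation. -/
def cvB : Q → Q → Bool
  | .b, .q1 => true
  | .b, .q2 => true
  | .b, .s1 => true
  | .b, .s3 => true
  | .r1, .t => true
  | .r2, .t => true
  | .s2, .t => true
  | .s4, .t => true
  | .q1, .r1 => true
  | .q1, .r2 => true
  | .q2, .r1 => true
  | .q2, .r2 => true
  | .s1, .s2 => true
  | .s1, .s4 => true
  | .s3, .s2 => true
  | .s3, .s4 => true
  | _, _ => false

/-- Order. -/
def leB (x y : Q) : Bool := decide (x = y) || ltB x y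

instance instPO : PartialOrder Q where
  le x y := leB x y = true
  lt x y := ltB x y = true
  le_refl := by decide
  le_trans := by decide
  lt_iff_le_not_ge := by decide
  le_antisymm := by decide

theorem lt_iff (x y : Q) : x < y ↔ ltB x y = true := Iff.rfl

theorem le_iff (x y : Q) : x ≤ y ↔ leB x y = true := Iff.rfl

theorem cov_iff (x y : Q) : x ⋖ y ↔ cvB x y = true := by
  have h : ∀ x y : Q, (ltB x y = true ∧ ∀ c, ltB x c = true → ¬ ltB c y = true) ↔
      cvB x y = true := by decide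
  exact h x y

/-- The weighting: weight one on seven edges. -/
def wt : Q → Q → ℕ
  | .b, .q1 => 1
  | .q1, .r1 => 1
  | .q2, .r2 => 1
  | .r2, .t => 1
  | .s2, .t => 1
  | .s1, .s2 => 1
  | .b, .s1 => 1
  | _, _ => 0

/-- The seven edges of positive weight. -/
def S7 : Finset (Q × Q) :=
  {(.b, .q1), (.q1, .r1), (.q2, .r2), (.r2, .t), (.s2, .t), (.s1, .s2), (.b, .s1)}

theorem wt_off : ∀ p : Q × Q, p ∉ S7 → wt p.1 p.2 = 0 := by decide

theorem S7_cov : ∀ p ∈ S7, cvB p.1 p.2 = true ∧ wt p.1 p.2 = 1 := by decide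

theorem cut_card : ∀ x y : Q,
    (S7.filter fun p => cvB p.1 p.2 = true ∧ cvB p.1 y = true ∧ cvB x p.2 = true).card ≤ 2 := by
  decide

theorem fan_card : ∀ v : Q,
    (S7.filter fun p => cvB p.1 p.2 = true ∧ (p.1 = v ∨ p.2 = v)).card ≤ 2 := by
  decide

/-- Every linear extension collects weight at most three. -/
theorem max_le (L : Q ≃ Fin (Fintype.card Q)) (hL : ∀ x y : Q, x < y → L x < L y)
    [DecidablePred fun p : Q × Q => p.1 ⋖ p.2 ∧ (L p.2 : ℕ) = (L p.1 : ℕ) + 1] :
    (∑ p ∈ Finset.univ.filter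
      (fun p : Q × Q => p.1 ⋖ p.2 ∧ (L p.2 : ℕ) = (L p.1 : ℕ) + 1), wt p.1 p.2) ≤ 3 := by
  rw [Finset.sum_filter, ← Finset.sum_subset (Finset.subset_univ S7)]
  swap
  · intro p _ hp
    rw [wt_off p hp]
    exact ite_self 0
  have hlt : ∀ x y : Q, ltB x y = true → (L x : ℕ) < (L y : ℕ) := fun x y h => hL x y h
  have hne : ∀ x y : Q, x ≠ y → (L x : ℕ) ≠ (L y : ℕ) := by
    intro x y hxy h
    exact hxy (L.injective (Fin.ext h))
  have hsum : (∑ p ∈ S7, if p.1 ⋖ p.2 ∧ (L p.2 : ℕ) = (L p.1 : ℕ) + 1 then wt p.1 p.2 else 0) =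
      ∑ p ∈ S7, if (L p.2 : ℕ) = (L p.1 : ℕ) + 1 then 1 else 0 := by
    refine Finset.sum_congr rfl fun p hp => ?_
    obtain ⟨h1, h2⟩ := S7_cov p hp
    rw [h2]
    simp only [cov_iff, h1, true_and]
  rw [hsum]
  unfold S7
  rw [Finset.sum_insert (by decide), Finset.sum_insert (by decide), Finset.sum_insert (by decide),
    Finset.sum_insert (by decide), Finset.sum_insert (by decide), Finset.sum_insert (by decide),
    Finset.sum_singleton]
  have n1 := hne .q1 .q2 (by decide)
  have n2 := hne .r1 .r2 (by decide)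
  have n3 := hne .r2 .s2 (by decide)
  have n4 := hne .s1 .s3 (by decide)
  have n5 := hne .s2 .s4 (by decide)
  have n6 := hne .q1 .s1 (by decide)
  have l1 := hlt .b .q1 rfl
  have l2 := hlt .b .q2 rfl
  have l3 := hlt .q1 .r1 rfl
  have l4 := hlt .q1 .r2 rfl
  have l5 := hlt .q2 .r1 rfl
  have l6 := hlt .q2 .r2 rfl
  have l7 := hlt .s1 .s2 rfl
  have l8 := hlt .s3 .s2 rfl
  have l9 := hlt .b .s3 rfl
  have l10 := hlt .s1 .s4 rfl
  have l11 := hlt .s4 .t rfl
  have l12 := hlt .r1 .t rfl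
  have l13 := hlt .r2 .t rfl
  have l14 := hlt .b .s1 rfl
  have l15 := hlt .s2 .t rfl
  generalize (L .b : ℕ) = b at *
  generalize (L .q1 : ℕ) = q1 at *
  generalize (L .q2 : ℕ) = q2 at *
  generalize (L .r1 : ℕ) = r1 at *
  generalize (L .r2 : ℕ) = r2 at *
  generalize (L .s1 : ℕ) = s1 at *
  generalize (L .s2 : ℕ) = s2 at *
  generalize (L .s3 : ℕ) = s3 at *
  generalize (L .s4 : ℕ) = s4 at *
  generalize (L .t : ℕ) = t at *
  clear hsum hne hlt hL
  have c12 : ¬ (q1 = b + 1 ∧ r1 = q1 + 1) := by omega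
  have c23 : ¬ (r1 = q1 + 1 ∧ r2 = q2 + 1) := by omega
  have c34 : ¬ (r2 = q2 + 1 ∧ t = r2 + 1) := by omega
  have c45 : ¬ (t = r2 + 1 ∧ t = s2 + 1) := by omega
  have c56 : ¬ (t = s2 + 1 ∧ s2 = s1 + 1) := by omega
  have c67 : ¬ (s2 = s1 + 1 ∧ s1 = b + 1) := by omega
  have c71 : ¬ (s1 = b + 1 ∧ q1 = b + 1) := by omega
  split_ifs <;> simp_all

end Pool.Agent.H471R3.SP
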